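import Pool.Agent.KDT.StmtsP

set_option autoImplicit false

/-!
# Row KBS of squad KDT (block Z, part P): descent of an equation
-/

namespace Pool.Agent.KDT.H94

open Pool.Agent.KDT.Z

theorem zkbs : KbsStatement := by
  intro k U _ _ _ Θ hΘ
  obtain ⟨e, he⟩ := MvPolynomial.ne_zero_iff.1 hΘ
  obtain ⟨ℓ, hℓ⟩ : ∃ ℓ : Module.Dual k U, ℓ (MvPolynomial.coeff e Θ) ≠ 0 := by
    by_contra h
    push Not at h
    exact he ((Module.forall_dual_apply_eq_zero_iff k _).1 h)
  set R : MvPolynomial (Fin 2) k :=
    ∑ d ∈ Θ.support, MvPolynomial.monomial d (ℓ (MvPolynomial.coeff d Θ)) with hR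
  have hco : ∀ d, MvPolynomial.coeff d R = ℓ (MvPolynomial.coeff d Θ) := by
    intro d
    rw [hR, MvPolynomial.coeff_sum]
    simp only [MvPolynomial.coeff_monomial]
    rw [Finset.sum_ite_eq' Θ.support d (fun x => ℓ (MvPolynomial.coeff x Θ))]
    split_ifs with h
    · rfl
    · rw [MvPolynomial.notMem_support_iff.1 h, map_zero]
  have hsup : R.support ⊆ Θ.support := by
    intro d hd
    rw [MvPolynomial.mem_support_iff, hco] at hd
    rw [MvPolynomial.mem_support_iff]
    intro h0
    exact hd (by rw [h0, map_zero])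
  refine ⟨R, ?_, ?_, ?_⟩
  · intro h0
    apply hℓ
    rw [← hco, h0, MvPolynomial.coeff_zero]
  · unfold MvPolynomial.totalDegree
    exact Finset.sup_mono hsup
  · intro s p hsp
    have h1 : MvPolynomial.eval ![s, p] R = ℓ (MvPolynomial.eval
        ![algebraMap k U s, algebraMap k U p] Θ) := by
      rw [hR, map_sum, MvPolynomial.eval_eq', map_sum]
      apply Finset.sum_congr rfl
      intro d _
      rw [MvPolynomial.eval_monomial, Finsupp.prod_fintype _ _ (fun i => pow_zero _)]
      have h2 : (∏ i, (![algebraMap k U s, algebraMap k U p] : Fin 2 → U) i ^ d i)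
          = algebraMap k U (∏ i, (![s, p] : Fin 2 → k) i ^ d i) := by
        rw [Fin.prod_univ_two, Fin.prod_univ_two]
        simp [map_mul, map_pow]
      rw [h2, mul_comm (MvPolynomial.coeff d Θ), ← Algebra.smul_def, map_smul, smul_eq_mul,
        mul_comm]
    rw [h1, hsp, map_zero]

end Pool.Agent.KDT.H94
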